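import Pool.Agent.Helper346.Cay.CayDeg
import Pool.Agent.Helper346.Cay.QB
import Pool.Agent.Helper346.Cay.QC

/-!
# The traceless part of the generic matrix: the Cayley degree of `SL_n` is at most `n`
-/

set_option autoImplicit false

open Polynomial

namespace Pool.Agent.Y460.CY

open Pool.Agent.Helper346.Cay

theorem EX1' (n : ℕ) (hn : 0 < n) (k K : Type*) [Field k] [IsAlgClosed k] [CharZero k] [Field K]
    [Algebra k K] [Algebra (SLRing n k) K] [IsFractionRing (SLRing n k) K]
    [IsScalarTower k (SLRing n k) K] :
    IsEquivariantDominant n k K (tl n k (genX n k K)) := by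
  refine ⟨?_, ?_, ?_⟩
  · exact tl_trace n hn k _
  · intro g c hg
    set G : Matrix (Fin n) (Fin n) K := (g : Matrix (Fin n) (Fin n) k).map (algebraMap k K) with hG
    set G' : Matrix (Fin n) (Fin n) K :=
      ((g⁻¹ : Matrix.SpecialLinearGroup (Fin n) k) : Matrix (Fin n) (Fin n) k).map
        (algebraMap k K) with hG'
    have hGG' : G * G' = 1 := by
      rw [hG, hG', ← Matrix.map_mul, ← Matrix.SpecialLinearGroup.coe_mul, mul_inv_cancel]
      simp
    have hG'G : G' * G = 1 := by
      rw [hG, hG', ← Matrix.map_mul, ← Matrix.SpecialLinearGroup.coe_mul, inv_mul_cancel]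
      simp
    have h1 : (tl n k (genX n k K)).map c = tl n k ((genX n k K).map c) := by
      ext i j
      exact map_tl n k c (genX n k K) i j
    rw [h1, hg]
    unfold tl
    have htr : (G * genX n k K * G').trace = (genX n k K).trace := by
      rw [Matrix.trace_mul_comm, ← Matrix.mul_assoc, hG'G, Matrix.one_mul]
    rw [htr, Matrix.mul_sub, Matrix.sub_mul, Matrix.mul_smul, Matrix.smul_mul, Matrix.mul_one, hGG']
  · intro P hP
    set φ : MvPolynomial (Fin n × Fin n) k →ₐ[k] K :=
      MvPolynomial.aeval (fun ij : Fin n × Fin n => genX n k K ij.1 ij.2) with hφ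
    set X' : Matrix (Fin n) (Fin n) (MvPolynomial (Fin n × Fin n) k) :=
      Matrix.mvPolynomialX (Fin n) (Fin n) k with hX'
    have hX'a : ∀ i j, X' i j = MvPolynomial.X (i, j) := fun i j => rfl
    set Q : MvPolynomial (Fin n × Fin n) k :=
      MvPolynomial.aeval (fun ij : Fin n × Fin n => tl n k X' ij.1 ij.2) P with hQ
    have hXφ : X'.map φ = genX n k K := by
      apply Matrix.ext
      intro i j
      show φ (X' i j) = _
      rw [hX'a, hφ, MvPolynomial.aeval_X]
    have hφQ : φ Q = 0 := by
      rw [hQ, MvPolynomial.comp_aeval_apply, ← hP]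
      congr 2
      funext ij
      rw [map_tl, hXφ]
    have hQspan : Q ∈ Ideal.span {X'.det - 1} := (LF0 n k K).1 Q hφQ
    -- evaluation of `Q` at a matrix
    have hevQ : ∀ Z : Matrix (Fin n) (Fin n) k,
        MvPolynomial.aeval (fun ij : Fin n × Fin n => Z ij.1 ij.2) Q =
          MvPolynomial.aeval (fun ij : Fin n × Fin n => tl n k Z ij.1 ij.2) P := by
      intro Z
      rw [hQ, MvPolynomial.comp_aeval_apply]
      congr 2
      funext ij
      rw [map_tl]
      congr 2
      ext i j
      show MvPolynomial.aeval (fun ij : Fin n × Fin n => Z ij.1 ij.2) (X' i j) = _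
      rw [hX'a, MvPolynomial.aeval_X]
    have hQ0 : Q = 0 := by
      apply MvPolynomial.funext
      intro x0
      rw [map_zero]
      set Z0 : Matrix (Fin n) (Fin n) k := Matrix.of fun i j => x0 (i, j) with hZ0
      set Y0 := tl n k Z0 with hY0
      obtain ⟨c, hc⟩ := exists_det_one n hn k Y0
      set X0 := Y0 + c • (1 : Matrix (Fin n) (Fin n) k) with hX0
      have hn' : (n : k) ≠ 0 := Nat.cast_ne_zero.2 hn.ne'
      have htl : tl n k X0 = Y0 := by
        have htr : X0.trace = n * c := by
          rw [hX0, Matrix.trace_add, hY0, tl_trace n hn k, Matrix.trace_smul, Matrix.trace_one,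
            Fintype.card_fin, smul_eq_mul, zero_add, mul_comm]
        unfold tl
        rw [htr]
        have : algebraMap k k ((n : k)⁻¹) * (n * c) = c := by
          show (n : k)⁻¹ * (n * c) = c
          rw [← mul_assoc, inv_mul_cancel₀ hn', one_mul]
        rw [this, hX0, add_sub_cancel_right]
      have h1 : MvPolynomial.aeval (fun ij : Fin n × Fin n => X0 ij.1 ij.2) Q = (0 : k) := by
        obtain ⟨a, ha⟩ := Ideal.mem_span_singleton.1 hQspan
        have h2 : MvPolynomial.aeval (fun ij : Fin n × Fin n => X0 ij.1 ij.2) X'.det = X0.det := by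
          rw [AlgHom.map_det]
          congr 1
          ext i j
          show MvPolynomial.aeval (fun ij : Fin n × Fin n => X0 ij.1 ij.2) (X' i j) = _
          rw [hX'a, MvPolynomial.aeval_X]
        rw [ha, map_mul, map_sub, h2, map_one, hc, sub_self, zero_mul]
      have h3 : MvPolynomial.eval x0 Q =
          MvPolynomial.aeval (fun ij : Fin n × Fin n => Z0 ij.1 ij.2) Q := by
        rw [← MvPolynomial.coe_aeval_eq_eval]
        rfl
      rw [h3, hevQ, ← hY0, ← htl, ← hevQ]
      exact h1
    rw [← Ideal.Quotient.eq_zero_iff_mem]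
    have h4 : Ideal.Quotient.mk (Ideal.span {X'.trace}) P =
        Ideal.Quotient.mk (Ideal.span {X'.trace}) Q := by
      have e1 : ∀ p : MvPolynomial (Fin n × Fin n) k, Ideal.Quotient.mk (Ideal.span {X'.trace}) p =
          Ideal.Quotient.mkₐ k (Ideal.span {X'.trace}) p := fun p => rfl
      have e2 : Ideal.Quotient.mkₐ k (Ideal.span {X'.trace}) X'.trace = 0 := by
        rw [← e1, Ideal.Quotient.eq_zero_iff_mem]
        exact Ideal.subset_span rfl
      rw [e1, e1, hQ, MvPolynomial.comp_aeval_apply]
      conv_lhs => rw [← MvPolynomial.aeval_X_left_apply P]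
      rw [MvPolynomial.comp_aeval_apply]
      congr 2
      funext ij
      rw [tl_apply, map_sub, map_mul, map_mul, e2, mul_zero, zero_mul, sub_zero, hX'a]
    rw [h4, hQ0, map_zero]


/-- the degree of the traceless part is at most `n` -/
theorem deg_tl (n : ℕ) (hn : 0 < n) (k K : Type*) [Field k] [IsAlgClosed k] [CharZero k] [Field K]
    [Algebra k K] [Algebra (SLRing n k) K] [IsFractionRing (SLRing n k) K]
    [IsScalarTower k (SLRing n k) K] :
    mapDegree n k K (tl n k (genX n k K)) ≤ n := by
  set F : Matrix (Fin n) (Fin n) K := tl n k (genX n k K) with hF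
  set L := fieldOf n k K F with hL
  set c : K := algebraMap k K ((n : k)⁻¹) * (genX n k K).trace with hc
  have hX : ∀ i j, genX n k K i j = F i j + c * (1 : Matrix (Fin n) (Fin n) K) i j := by
    intro i j
    rw [hF, tl_apply]
    ring
  -- the equation of `c`
  set q : L[X] := (-(FY n k K F)).charpoly - C 1 with hq
  have hdeg : (-(FY n k K F)).charpoly.degree = n := by
    rw [Matrix.charpoly_degree_eq_dim, Fintype.card_fin]
  have hdq : q.degree = n := by
    rw [hq, degree_sub_C, hdeg]
    rw [hdeg]
    exact_mod_cast hn
  have hq0 : q ≠ 0 := by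
    intro h
    rw [h, degree_zero] at hdq
    exact absurd hdq (by simp)
  have hroot : aeval c q = 0 := by
    have h1 : (genX n k K).det = 1 := (LF0 n k K).2
    have h2 : aeval c (-(FY n k K F)).charpoly = (genX n k K).det := by
      rw [aeval_def, ← eval_map, ← Matrix.charpoly_map, Matrix.eval_charpoly]
      congr 1
      ext i j
      have h3 : ((-(FY n k K F)).map (algebraMap L K)) i j = - F i j := by
        rw [Matrix.map_apply, Matrix.neg_apply, map_neg]
        rfl
      rw [Matrix.sub_apply, h3, hX i j]
      by_cases hij : i = j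
      · subst hij
        simp
        ring
      · simp [hij]
    rw [hq, map_sub, h2, h1]
    simp
  have hint : IsIntegral L c := by
    rw [← isAlgebraic_iff_isIntegral]
    exact ⟨q, hq0, hroot⟩
  have htop : IntermediateField.adjoin L {c} = ⊤ := by
    rw [eq_top_iff]
    have := K_ind n k K
      (fun z => z ∈ IntermediateField.adjoin L {c})
      (fun a => by
        have h1 : algebraMap k K a = algebraMap L K (algebraMap k L a) := rfl
        rw [h1]
        exact IntermediateField.algebraMap_mem _ _)
      (fun i j => by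
        show genX n k K i j ∈ IntermediateField.adjoin L {c}
        rw [hX i j]
        refine add_mem ?_ (mul_mem (IntermediateField.mem_adjoin_simple_self L c) ?_)
        · have h1 : F i j = algebraMap L K (FY n k K F i j) := rfl
          rw [h1]
          exact IntermediateField.algebraMap_mem _ _
        · by_cases hij : i = j
          · subst hij
            rw [Matrix.one_apply_eq]
            exact one_mem _
          · rw [Matrix.one_apply_ne hij]
            exact zero_mem _)
      (fun a b ha hb => add_mem ha hb)
      (fun a b ha hb => mul_mem ha hb)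
      (fun a ha => inv_mem ha)
    intro z _
    exact this z
  have h4 : Module.finrank L K = (minpoly L c).natDegree := by
    rw [← IntermediateField.adjoin.finrank hint, htop, IntermediateField.finrank_top']
  have h5 : (minpoly L c).natDegree ≤ q.natDegree := natDegree_le_of_dvd (minpoly.dvd L c hroot) hq0
  have h6 : q.natDegree = n := natDegree_eq_of_degree_eq_some hdq
  show Module.finrank L K ≤ n
  rw [h4]
  omega

theorem le_n (n : ℕ) (hn : 1 ≤ n) (k : Type*) [Field k] [IsAlgClosed k] [CharZero k] :
    cayleyDegree n k ≤ n := by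
  unfold cayleyDegree
  refine le_trans (Nat.sInf_le ?_) (deg_tl n hn k (FractionRing (SLRing n k)))
  exact ⟨_, EX1' n hn k (FractionRing (SLRing n k)), rfl⟩

theorem one_le (n : ℕ) (hn : 1 ≤ n) (k : Type*) [Field k] [IsAlgClosed k] [CharZero k] :
    1 ≤ cayleyDegree n k := by
  unfold cayleyDegree
  apply le_csInf
  · exact ⟨_, _, EX1' n hn k (FractionRing (SLRing n k)), rfl⟩
  · rintro d ⟨F, hF, rfl⟩
    haveI := FN1 n hn k (FractionRing (SLRing n k)) F hF.dominant
    exact Module.finrank_pos

end Pool.Agent.Y460.CY
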